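import Pool.Agent.Q141.Lens.Pair

set_option autoImplicit false
set_option maxRecDepth 100000

/-! # Certificates for isospectral lens pairs of order 56 and 25 with `n ≡ -1 (mod φ(q)/2)` -/

namespace Pool.Agent.Q141.Lens

open Pool.Agent.Helper477.Sph

theorem cert56 : Cert 56 2 [1, 3, 5, 9, 11, 13, 15, 17, 19, 23, 25, 27]
    [3, 5, 5, 9, 11, 11, 13, 13, 19, 19, 23, 25, 27]
    [3, 5, 5, 9, 11, 11, 13, 19, 19, 23, 25, 27, 27] where
  hU := by decide +kernel
  hU0 := by decide
  hinv := by decide +kernel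
  hlen := rfl
  horb := by decide +kernel
  hne := by decide +kernel
  hL := by decide +kernel
  hL' := by decide +kernel

theorem cert25 : Cert 25 3 [1, 2, 3, 4, 6, 7, 8, 9, 11, 12]
    [2, 3, 6, 7, 7, 8, 8, 11, 11, 12, 12]
    [2, 3, 6, 7, 8, 8, 8, 9, 11, 12, 12] where
  hU := by decide +kernel
  hU0 := by decide
  hinv := by decide +kernel
  hlen := rfl
  horb := by decide +kernel
  hne := by decide +kernel
  hL := by decide +kernel
  hL' := by decide +kernel

end Pool.Agent.Q141.Lens
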