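import Pool.Agent.Helper477.Sph.Lens4

set_option autoImplicit false

/-! # Explicit isospectral lens pairs from certificates -/

namespace Pool.Agent.Q141.Lens

open Polynomial Pool.Agent.Helper477 Pool.Agent.Helper477.Sph Pool.Agent.Helper477.HarmInv

variable {q : ℕ} [NeZero q]

theorem Cert.mono {q κ κ' : ℕ} {U L L' : List ℕ} (c : Cert q κ U L L') (h : κ ≤ κ') :
    Cert q κ' U L L' where
  hU := c.hU
  hU0 := c.hU0
  hinv := c.hinv
  hlen := c.hlen
  horb := c.horb
  hne := c.hne
  hL := c.hL.trans (by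
    obtain ⟨d, rfl⟩ := Nat.exists_eq_add_of_le h
    rw [add_nsmul]
    exact Multiset.le_add_right _ _)
  hL' := c.hL'.trans (by
    obtain ⟨d, rfl⟩ := Nat.exists_eq_add_of_le h
    rw [add_nsmul]
    exact Multiset.le_add_right _ _)

/-- A certificate gives isospectrality and non-isometry of explicit lens groups. -/
theorem lens_explicit {κ n : ℕ} {U L L' : List ℕ} (c : Cert q κ U L L') (hn0 : 0 < n)
    {S S' : Multiset ℕ} {s s' : Fin n → ZMod q}
    (hSL : S + (L : Multiset ℕ) = κ • (U : Multiset ℕ))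
    (hSL' : S' + (L' : Multiset ℕ) = κ • (U : Multiset ℕ))
    (hS : Finset.univ.val.map s = S.map (Nat.cast : ℕ → ZMod q))
    (hS' : Finset.univ.val.map s' = S'.map (Nat.cast : ℕ → ZMod q))
    (hsu : ∀ j, IsUnit (s j)) (hsu' : ∀ j, IsUnit (s' j)) :
    hilb (LG s) = hilb (LG s') ∧ ¬ Conj (LG s) (LG s') := by
  classical
  have hfin := finite_LG hn0 hsu
  have hfin' := finite_LG hn0 hsu'
  refine ⟨?_, ?_⟩
  · -- isospectrality
    have := Fintype.ofFinite (LG s)
    have := Fintype.ofFinite (LG s')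
    have m1 := molien_series (LG s)
    have m2 := molien_series (LG s')
    rw [sum_LG hn0 hsu (fun g => tau (cx g.1))] at m1
    rw [sum_LG hn0 hsu' (fun g => tau (cx g.1))] at m2
    rw [← Nat.card_eq_fintype_card, card_LG hn0 hsu] at m1
    rw [← Nat.card_eq_fintype_card, card_LG hn0 hsu'] at m2
    have key : ∀ {S L : Multiset ℕ} {s : Fin n → ZMod q}, S + L = κ • (U : Multiset ℕ) →
        Finset.univ.val.map s = S.map (Nat.cast : ℕ → ZMod q) → ∀ l : ZMod q,
        tau (cx (lg s ^ l.val).1) * (PP (U : Multiset ℕ) l ^ κ : ℂ[X]) = (PP L l : ℂ[X]) := by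
      intro S L s hSL hS l
      rw [← PP_nsmul, ← hSL, PP_add, Polynomial.coe_mul, ← mul_assoc, tau_lg s S hS, one_mul]
    have h3 := sum_series c _ _ (key hSL hS) (key hSL' hS')
    have hq : (PowerSeries.C (q : ℂ)) ≠ 0 := by
      rw [Ne, map_eq_zero_iff _ PowerSeries.C_injective]
      exact Nat.cast_ne_zero.mpr (NeZero.ne q)
    apply mul_left_cancel₀ hq
    rw [m1, m2, h3]
  · -- non-isometry
    rintro ⟨h, hh⟩
    have h1 : h * lg s * h⁻¹ ∈ LG s' := (hh _).mp (Subgroup.mem_zpowers _)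
    obtain ⟨k, hk⟩ := mem_LG.mp h1
    have ho : orderOf (lg s' ^ k) = q := by
      rw [hk]
      have : orderOf (h * lg s * h⁻¹) = orderOf (lg s) := by
        rw [← MulAut.conj_apply]
        exact MulEquiv.orderOf_eq (MulAut.conj h) (lg s)
      rw [this, orderOf_lg hn0 hsu]
    have hkq : Nat.Coprime k q := by
      rw [(finOrd s').orderOf_pow, orderOf_lg hn0 hsu'] at ho
      have h2 : q / Nat.gcd q k = q → Nat.gcd q k = 1 := by
        intro h3
        have hqp : 0 < q := Nat.pos_of_ne_zero (NeZero.ne q)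
        have h4 := Nat.div_mul_cancel (Nat.gcd_dvd_left q k)
        rw [h3] at h4
        exact Nat.eq_of_mul_eq_mul_left hqp (by rw [h4, mul_one])
      exact (Nat.gcd_comm k q).trans (h2 ho)
    have h5 : (cx (lg s ^ 1).1).charpolyRev = (cx (lg s' ^ k).1).charpolyRev := by
      rw [hk, pow_one]
      have e1 : cx (h * lg s * h⁻¹).1 = cx h.1 * cx (lg s).1 * cx (h⁻¹).1 := by
        rw [← cx_mul, ← cx_mul]
        rfl
      rw [e1]
      symm
      apply charpolyRev_conj
      rw [← cx_mul]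
      have : (h⁻¹).1 * h.1 = 1 := congrArg Subtype.val (inv_mul_cancel h)
      rw [this, cx_one]
    rw [charpolyRev_lg, charpolyRev_lg] at h5
    have h6 : ∀ {S : Multiset ℕ} {s : Fin n → ZMod q} (l : ZMod q),
        Finset.univ.val.map s = S.map (Nat.cast : ℕ → ZMod q) → ∏ j, QQ (l * s j) = PP S l := by
      intro S s l hS
      unfold PP
      have h6 : (S.map fun a : ℕ => QQ (l * (a : ZMod q))) =
          (S.map (Nat.cast : ℕ → ZMod q)).map fun x => QQ (l * x) := by
        rw [Multiset.map_map]; rfl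
      rw [h6, ← hS, Multiset.map_map]
      rfl
    rw [h6 _ hS, h6 _ hS'] at h5
    -- pass to complements
    have h7 : PP (L : Multiset ℕ) (1 : ZMod q) = PP (L' : Multiset ℕ) (k : ZMod q) := by
      have a1 := PP_add S L (1 : ZMod q)
      have a2 := PP_add S' L' (k : ZMod q)
      rw [hSL, PP_nsmul] at a1
      rw [hSL', PP_nsmul] at a2
      have a3 := PP_inv c hkq (1 : ZMod q)
      rw [one_mul] at a3
      rw [a3, a1] at a2
      rw [Nat.cast_one] at h5
      rw [h5] at a2
      exact mul_left_cancel₀ (PP_ne_zero _ _) a2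
    have h8 := sy_perm (sy_eq_of_PP h7)
    have hk' : Nat.Coprime (k % q) q := by
      rw [Nat.Coprime, ← Nat.gcd_rec, Nat.gcd_comm]
      exact hkq
    exact c.hne (k % q) (Nat.mod_lt _ (Nat.pos_of_ne_zero (NeZero.ne q))) hk' h8

end Pool.Agent.Q141.Lens
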